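import Pool.Agent.W533.PP.Stm

/-!
Counting the inversion sequences (`ICOUNT`).
-/

set_option autoImplicit false

namespace Pool.Agent.W73.PP

open Finset
open scoped Classical
open Pool.Agent.W533.PP

/-- the inversion sequences of length `n + 1` -/
noncomputable def S (n : ℕ) : Finset (Fin (n+1) → ℕ) :=
  (Fintype.piFinset (fun i : Fin (n+1) => Finset.range (i.val + 1))).filter (fun e => Inv e)

theorem mem_S {n : ℕ} (e : Fin (n+1) → ℕ) : e ∈ S n ↔ Inv e := by
  unfold S
  rw [Finset.mem_filter, Fintype.mem_piFinset]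
  refine ⟨fun h => h.2, fun h => ⟨fun i => ?_, h⟩⟩
  rw [Finset.mem_range]
  exact Nat.lt_succ_of_le (h.1 i)

/-- number of nodes `m` levels below the sequences of length `n + 1` -/
noncomputable def N (n m : ℕ) : ℕ := ∑ e ∈ S n, T m (bL e) (aL e)

theorem mem_aI {n : ℕ} (e : Fin (n+1) → ℕ) (x : ℕ) : x ∈ aI e ↔ ActI e x := by
  unfold aI
  rw [Finset.mem_filter, Finset.mem_range]
  exact ⟨fun h => h.2, fun h => ⟨Nat.lt_succ_of_le h.1, h⟩⟩

theorem app_init {n : ℕ} (e : Fin (n+1) → ℕ) :
    app (fun i : Fin n => e i.castSucc) (e (Fin.last n)) = e := by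
  funext i
  induction i using Fin.lastCases with
  | last => rw [app_last]
  | cast i => rw [app_castSucc]

theorem N_succ (h1 : IINS) (h2 : ISUM) (n m : ℕ) : N (n+1) m = N n (m+1) := by
  have h3 : N n (m+1) = ∑ p ∈ (S n).sigma (fun e => aI e),
      T m (bL (app p.1 p.2)) (aL (app p.1 p.2)) := by
    rw [Finset.sum_sigma]
    unfold N
    refine Finset.sum_congr rfl fun e he => ?_
    exact (h2 n e ((mem_S e).mp he) m).symm
  rw [h3]
  unfold N
  symm
  refine Finset.sum_nbij' (fun p => app p.1 p.2)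
    (fun e => ⟨fun i => e i.castSucc, e (Fin.last _)⟩) ?_ ?_ ?_ ?_ ?_
  · rintro ⟨e, x⟩ hp
    obtain ⟨he, hx⟩ := Finset.mem_sigma.mp hp
    exact (mem_S _).mpr ((h1 _ e x).mpr ⟨(mem_S e).mp he, (mem_aI e x).mp hx⟩)
  · intro e he
    have h4 := (mem_S e).mp he
    rw [← app_init e] at h4
    obtain ⟨h5, h6⟩ := (h1 _ _ _).mp h4
    exact Finset.mem_sigma.mpr ⟨(mem_S _).mpr h5, (mem_aI _ _).mpr h6⟩
  · rintro ⟨e, x⟩ _
    simp only [app_last, app_castSucc]
  · intro e _
    exact app_init e
  · rintro ⟨e, x⟩ _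
    rfl

theorem N_eq (h1 : IINS) (h2 : ISUM) (n m : ℕ) : N n m = N 0 (n + m) := by
  induction n generalizing m with
  | zero => rw [zero_add]
  | succ n ih =>
    rw [N_succ h1 h2, ih]
    congr 1
    omega

theorem N_zero (m : ℕ) : N 0 m = T m 1 1 := by
  have hS : S 0 = {fun _ => 0} := by
    ext e
    rw [mem_S, Finset.mem_singleton]
    constructor
    · intro h
      funext i
      have := h.1 i
      have hi := i.isLt
      omega
    · rintro rfl
      refine ⟨fun i => Nat.zero_le _, fun i j k _ _ h => ?_⟩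
      exact absurd h.1 (lt_irrefl _)
  have hA : ∀ x, x ≤ 1 → ActI (n := 0 + 1) (fun _ => 0) x := by
    intro x hx
    refine ⟨hx, fun i j hij => ?_⟩
    exfalso
    have := i.isLt
    have := j.isLt
    have : i.val < j.val := hij
    omega
  have hM : Mx (n := 0) (fun _ => 0) = 0 := by
    unfold Mx
    exact le_antisymm (Finset.sup_le fun _ _ => le_refl _) (Nat.zero_le _)
  unfold N
  rw [hS, Finset.sum_singleton]
  have ha : aL (n := 0) (fun _ => 0) = 1 := by
    unfold aL
    rw [hM]
    have : (Finset.range (0 + 1)).filter (fun s => ActI (n := 0 + 1) (fun _ => 0) s) =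
        Finset.range (0 + 1) := by
      rw [Finset.filter_eq_self]
      intro x hx
      rw [Finset.mem_range] at hx
      exact hA x (by omega)
    rw [this]
    rfl
  have hb : bL (n := 0) (fun _ => 0) = 1 := by
    unfold bL
    rw [hM]
    have : (Finset.Ico (0 + 1) (0 + 2)).filter (fun s => ActI (n := 0 + 1) (fun _ => 0) s) =
        Finset.Ico (0 + 1) (0 + 2) := by
      rw [Finset.filter_eq_self]
      intro x hx
      rw [Finset.mem_Ico] at hx
      exact hA x (by omega)
    rw [this]
    rfl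
  rw [ha, hb]

theorem icount (h1 : IINS) (h2 : ISUM) : ICOUNT := by
  intro n
  have h3 : Nat.card {e : Fin (n+1) → ℕ // Inv e} = (S n).card :=
    Nat.subtype_card (S n) (fun e => mem_S e)
  have h4 : N n 0 = (S n).card := by
    unfold N
    simp [T_zero]
  rw [h3, ← h4, N_eq h1 h2 n 0, add_zero, N_zero]

end Pool.Agent.W73.PP
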